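import Pool.Agent.Q14.Mono

/-!
# The maximal ideal and the square of the closed neighborhood ideal of a Kneser graph
-/

set_option autoImplicit false

namespace Pool.Agent.Results.MP_a8e883_al.KneserClassification

open MvPolynomial Q14.Mono

/-- The Kneser graph `K(n,k)`: the vertices are the `k`-element subsets of an `n`-element set, and
two (different) subsets are adjacent when they are disjoint. -/
def kneser (n k : ℕ) : SimpleGraph {s : Finset (Fin n) // s.card = k} where
  Adj s t := s ≠ t ∧ Disjoint s.1 t.1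
  symm := ⟨fun _ _ h => ⟨h.1.symm, h.2.symm⟩⟩
  loopless := ⟨fun _ h => h.1 rfl⟩

open Classical in
/-- The closed neighbourhood `N_G[i]`. -/
noncomputable def closedNbhd {V : Type*} [Fintype V] (G : SimpleGraph V) (i : V) : Finset V :=
  Finset.univ.filter (fun j => j = i ∨ G.Adj i j)

/-- The closed neighborhood ideal `NI(G)`, generated by the products `x_{N_G[i]}`. -/
noncomputable def NI (K : Type*) [Field K] {V : Type*} [Fintype V] (G : SimpleGraph V) :
    Ideal (MvPolynomial V K) :=
  Ideal.span (Set.range (fun i => ∏ j ∈ closedNbhd G i, X j))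

/-- The maximal homogeneous ideal. -/
noncomputable def maxIdeal (K : Type*) [Field K] (V : Type*) : Ideal (MvPolynomial V K) :=
  Ideal.span (Set.range X)

/-- `𝔪` is an associated prime of `S/J`. -/
def MaxIdealIsAssociated {K : Type*} [Field K] {V : Type*} (J : Ideal (MvPolynomial V K)) : Prop :=
  maxIdeal K V ∈ associatedPrimes (MvPolynomial V K) (MvPolynomial V K ⧸ J)

section General

variable {K : Type*} [Field K] {V : Type*} [Fintype V]

lemma mem_closedNbhd {G : SimpleGraph V} {i j : V} : j ∈ closedNbhd G i ↔ j = i ∨ G.Adj i j := by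
  simp [closedNbhd]

lemma self_mem (G : SimpleGraph V) (i : V) : i ∈ closedNbhd G i := mem_closedNbhd.mpr (Or.inl rfl)

/-- The exponent of a square-free monomial. -/
noncomputable def ind (A : Finset V) : V →₀ ℕ := Finsupp.indicator A (fun _ _ => 1)

open Classical in
lemma ind_apply (A : Finset V) (i : V) : ind A i = if i ∈ A then 1 else 0 := by
  unfold ind
  rw [Finsupp.indicator_apply]
  split_ifs <;> rfl

lemma prod_X (A : Finset V) : (∏ j ∈ A, X j : MvPolynomial V K) = monomial (ind A) 1 := by
  classical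
  have h : ind A = ∑ j ∈ A, Finsupp.single j 1 := by
    ext i
    rw [ind_apply, Finsupp.finsetSum_apply]
    simp only [Finsupp.single_apply]
    rw [Finset.sum_ite_eq']
  rw [h, monomial_sum_one]
  rfl

lemma NI_eq (G : SimpleGraph V) : NI K G =
    Ideal.span ((fun u => monomial u (1 : K)) '' Set.range (fun i => ind (closedNbhd G i))) := by
  unfold NI
  congr 1
  rw [← Set.range_comp]
  congr 1
  funext i
  exact prod_X _

lemma isMon_NI (G : SimpleGraph V) : IsMon (NI K G) := by
  rw [NI_eq]; exact isMon_span _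

lemma monomial_mem_sq {G : SimpleGraph V} {u : V →₀ ℕ} :
    monomial u (1 : K) ∈ NI K G ^ 2 ↔
      ∃ i j, ind (closedNbhd G i) + ind (closedNbhd G j) ≤ u := by
  have hmem : ∀ w : V →₀ ℕ, monomial w (1 : K) ∈ NI K G ↔ ∃ i, ind (closedNbhd G i) ≤ w := by
    intro w
    rw [NI_eq, monomial_mem_span_iff]
    constructor
    · rintro ⟨_, ⟨i, rfl⟩, h⟩; exact ⟨i, h⟩
    · rintro ⟨i, h⟩; exact ⟨_, ⟨i, rfl⟩, h⟩
  constructor
  · intro h
    rw [pow_two] at h
    obtain ⟨v, w, hv, hw, rfl⟩ := (isMon_NI G).monomial_mem_mul (isMon_NI G) h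
    obtain ⟨i, hi⟩ := (hmem v).mp hv
    obtain ⟨j, hj⟩ := (hmem w).mp hw
    exact ⟨i, j, add_le_add hi hj⟩
  · rintro ⟨i, j, hle⟩
    refine monomial_mem_of_le hle ?_
    rw [← one_mul (1 : K), ← monomial_mul, pow_two]
    exact Ideal.mul_mem_mul ((hmem _).mpr ⟨i, le_rfl⟩) ((hmem _).mpr ⟨j, le_rfl⟩)

lemma maxIdeal_eq : maxIdeal K V = PV K Set.univ := by
  unfold maxIdeal PV; rw [Set.image_univ]

lemma maxIdeal_isMaximal : (maxIdeal K V).IsMaximal := by
  have h1 : maxIdeal K V = RingHom.ker (constantCoeff : MvPolynomial V K →+* K) := by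
    ext f
    rw [maxIdeal_eq, mem_PV, RingHom.mem_ker, constantCoeff_eq]
    constructor
    · intro h
      by_contra h0
      obtain ⟨i, -, hi⟩ := h 0 (mem_support_iff.mpr h0)
      exact hi rfl
    · intro h u hu
      by_contra hcon
      push Not at hcon
      have : u = 0 := by ext i; exact hcon i (Set.mem_univ i)
      rw [this] at hu
      exact (mem_support_iff.mp hu) h
  rw [h1]
  exact RingHom.ker_isMaximal_of_surjective _ (fun a => ⟨C a, constantCoeff_C _ a⟩)

/-- A combinatorial criterion: from the monomial to the prime. -/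
lemma isAssociated_of (G : SimpleGraph V) (u : V →₀ ℕ)
    (h1 : ¬ ∃ i j, ind (closedNbhd G i) + ind (closedNbhd G j) ≤ u)
    (h2 : ∀ v, ∃ i j, ind (closedNbhd G i) + ind (closedNbhd G j) ≤ Finsupp.single v 1 + u) :
    MaxIdealIsAssociated (NI K G ^ 2) := by
  have hcol : Submodule.colon (NI K G ^ 2) {(monomial u (1 : K))} = maxIdeal K V := by
    symm
    refine maxIdeal_isMaximal.eq_of_le ?_ ?_
    · intro htop
      rw [Ideal.eq_top_iff_one, Submodule.mem_colon_singleton, one_smul, monomial_mem_sq] at htop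
      exact h1 htop
    · unfold maxIdeal
      rw [Ideal.span_le]
      rintro _ ⟨v, rfl⟩
      show X v ∈ Submodule.colon (NI K G ^ 2) {(monomial u (1 : K))}
      rw [Submodule.mem_colon_singleton, smul_eq_mul, X, monomial_mul, one_mul, monomial_mem_sq]
      exact h2 v
  unfold MaxIdealIsAssociated
  rw [← hcol]
  exact colon_mem_associatedPrimes (by rw [hcol]; exact maxIdeal_isMaximal.isPrime)

/-- From the prime to the monomial. -/
lemma exists_of_isAssociated (G : SimpleGraph V) (h : MaxIdealIsAssociated (NI K G ^ 2)) :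
    ∃ u : V →₀ ℕ, (¬ ∃ i j, ind (closedNbhd G i) + ind (closedNbhd G j) ≤ u) ∧
    (∀ v, ∃ i j, ind (closedNbhd G i) + ind (closedNbhd G j) ≤ Finsupp.single v 1 + u) := by
  unfold MaxIdealIsAssociated at h
  rw [AssociatedPrimes.mem_iff, isAssociatedPrime_iff] at h
  obtain ⟨-, x, hx⟩ := h
  obtain ⟨f, rfl⟩ := Ideal.Quotient.mk_surjective x
  have hmem : ∀ g, g ∈ maxIdeal K V ↔ g * f ∈ NI K G ^ 2 := by
    intro g
    rw [hx, Submodule.mem_colon_singleton, Submodule.mem_bot]
    have h1 : g • (Ideal.Quotient.mk (NI K G ^ 2) f) = Ideal.Quotient.mk (NI K G ^ 2) (g * f) := by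
      rw [map_mul]; rfl
    rw [h1, Ideal.Quotient.eq_zero_iff_mem]
  have hf : f ∉ NI K G ^ 2 := by
    intro hf
    apply (maxIdeal_isMaximal (K := K) (V := V)).ne_top
    rw [Ideal.eq_top_iff_one, hmem, one_mul]
    exact hf
  rw [((isMon_NI G).pow 2).mem_iff] at hf
  push Not at hf
  obtain ⟨u, hu, huI⟩ := hf
  rw [monomial_mem_sq] at huI
  refine ⟨u, huI, fun v => ?_⟩
  have h1 : X v * f ∈ NI K G ^ 2 := (hmem _).mp (Ideal.subset_span ⟨v, rfl⟩)
  rw [← monomial_mem_sq (K := K)]
  exact ((isMon_NI G).pow 2).of_X_mul_mem h1 hu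

/-- The structure of such a monomial. -/
lemma structure_lemma (G : SimpleGraph V) (u : V →₀ ℕ)
    (h1 : ¬ ∃ i j, ind (closedNbhd G i) + ind (closedNbhd G j) ≤ u)
    (h2 : ∀ v, ∃ i j, ind (closedNbhd G i) + ind (closedNbhd G j) ≤ Finsupp.single v 1 + u) :
    (∀ v, u v ≠ 0 → ∃ i j, (∀ w ∈ closedNbhd G i, u w ≠ 0) ∧ (∀ w ∈ closedNbhd G j, u w ≠ 0) ∧
      ∀ w, (w ∈ closedNbhd G i ∧ w ∈ closedNbhd G j) ↔ w = v) ∧
    (∀ i j, (∀ w ∈ closedNbhd G i, u w ≠ 0) → (∀ w ∈ closedNbhd G j, u w ≠ 0) →
      ∃ w, w ∈ closedNbhd G i ∧ w ∈ closedNbhd G j) := by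
  classical
  have hle1 : ∀ v, u v ≤ 1 ∧ ∃ i j, (∀ w, (if w ∈ closedNbhd G i then 1 else 0) +
      (if w ∈ closedNbhd G j then 1 else 0) ≤ (if v = w then 1 else 0) + u w) ∧
      (if v ∈ closedNbhd G i then 1 else 0) + (if v ∈ closedNbhd G j then 1 else 0)
        = 1 + u v := by
    intro v
    obtain ⟨i, j, hij⟩ := h2 v
    have hij' : ∀ w, (if w ∈ closedNbhd G i then 1 else 0) +
      (if w ∈ closedNbhd G j then 1 else 0) ≤ (if v = w then 1 else 0) + u w := by
      intro w
      have := hij w
      simpa only [Finsupp.add_apply, ind_apply, Finsupp.single_apply] using this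
    have hv : (if v ∈ closedNbhd G i then 1 else 0) + (if v ∈ closedNbhd G j then 1 else 0)
        = 1 + u v := by
      by_contra hne
      apply h1
      refine ⟨i, j, fun w => ?_⟩
      rw [Finsupp.add_apply, ind_apply, ind_apply]
      have h3 := hij' w
      by_cases hw : v = w
      · subst hw
        rw [if_pos (rfl : v = v)] at h3
        omega
      · rw [if_neg hw] at h3
        omega
    refine ⟨?_, i, j, hij', hv⟩
    have : (if v ∈ closedNbhd G i then 1 else 0) + (if v ∈ closedNbhd G j then 1 else 0) ≤ 2 := by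
      split_ifs <;> omega
    omega
  constructor
  · intro v hv
    obtain ⟨hv1, i, j, hij, hvv⟩ := hle1 v
    have huv : u v = 1 := by omega
    rw [huv] at hvv
    have hvi : v ∈ closedNbhd G i := by
      by_contra h
      rw [if_neg h] at hvv
      split_ifs at hvv <;> omega
    have hvj : v ∈ closedNbhd G j := by
      by_contra h
      rw [if_neg h] at hvv
      split_ifs at hvv <;> omega
    refine ⟨i, j, ?_, ?_, ?_⟩
    · intro w hw
      by_cases hvw : v = w
      · rw [← hvw]; exact hv
      · have := hij w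
        rw [if_pos hw, if_neg hvw] at this
        omega
    · intro w hw
      by_cases hvw : v = w
      · rw [← hvw]; exact hv
      · have := hij w
        rw [if_pos hw, if_neg hvw] at this
        omega
    · intro w
      constructor
      · rintro ⟨hwi, hwj⟩
        by_contra hwv
        have := hij w
        rw [if_pos hwi, if_pos hwj, if_neg (Ne.symm hwv)] at this
        have := (hle1 w).1
        omega
      · rintro rfl; exact ⟨hvi, hvj⟩
  · intro i j hi hj
    by_contra hcon
    push Not at hcon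
    apply h1
    refine ⟨i, j, fun w => ?_⟩
    rw [Finsupp.add_apply, ind_apply, ind_apply]
    by_cases hwi : w ∈ closedNbhd G i
    · have := hi w hwi
      rw [if_pos hwi, if_neg (hcon w hwi)]
      omega
    · rw [if_neg hwi]
      split_ifs with hwj
      · have := hj w hwj; omega
      · omega

end General

section Kneser

variable {n k : ℕ}

/-- Vertices of the Kneser graph. -/
abbrev Vx (n k : ℕ) : Type := {s : Finset (Fin n) // s.card = k}

lemma adj_iff {s t : Vx n k} (hk : 1 ≤ k) : (kneser n k).Adj s t ↔ Disjoint s.1 t.1 := by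
  constructor
  · exact fun h => h.2
  · intro h
    refine ⟨?_, h⟩
    rintro rfl
    have h1 := Finset.disjoint_self_iff_empty _ |>.mp h
    have := s.2
    rw [h1, Finset.card_empty] at this
    omega

/-- For `n ≥ 2k`, no vertex is isolated. -/
lemma exists_adj (hk : 1 ≤ k) (hn : 2 * k ≤ n) (s : Vx n k) : ∃ t, (kneser n k).Adj s t := by
  have h1 : k ≤ (s.1ᶜ).card := by
    rw [Finset.card_compl, Fintype.card_fin, s.2]; omega
  obtain ⟨t, hts, htc⟩ := Finset.exists_subset_card_eq h1
  refine ⟨⟨t, htc⟩, (adj_iff hk).mpr ?_⟩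
  exact Finset.disjoint_of_subset_right hts disjoint_compl_right

/-- If the closed neighbourhoods of `i` and `j` meet exactly in `v`, then `i ∪ j` is the
complement of `v`, `i ≠ j` and `i`, `j` intersect. -/
lemma union_eq (hk : 1 ≤ k) (hn : 2 * k ≤ n) {i j v : Vx n k}
    (h : ∀ w, (w ∈ closedNbhd (kneser n k) i ∧ w ∈ closedNbhd (kneser n k) j) ↔ w = v) :
    i ≠ j ∧ ¬ Disjoint i.1 j.1 ∧ i.1 ∪ j.1 = v.1ᶜ := by
  classical
  simp only [mem_closedNbhd] at h
  have hij : i ≠ j := by
    rintro rfl
    obtain ⟨t, ht⟩ := exists_adj hk hn i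
    have h1 := (h i).mp ⟨Or.inl rfl, Or.inl rfl⟩
    have h2 := (h t).mp ⟨Or.inr ht, Or.inr ht⟩
    rw [← h2] at h1
    exact ht.ne h1
  have hnadj : ¬ (kneser n k).Adj i j := by
    intro hadj
    have h1 := (h i).mp ⟨Or.inl rfl, Or.inr hadj.symm⟩
    have h2 := (h j).mp ⟨Or.inr hadj, Or.inl rfl⟩
    exact hij (h1.trans h2.symm)
  have hndis : ¬ Disjoint i.1 j.1 := fun hd => hnadj ((adj_iff hk).mpr hd)
  obtain ⟨hvi, hvj⟩ := (h v).mpr rfl
  have hvi' : (kneser n k).Adj i v := by
    rcases hvi with rfl | hvi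
    · rcases hvj with h1 | h1
      · exact absurd h1 hij
      · exact absurd h1.symm hnadj
    · exact hvi
  have hvj' : (kneser n k).Adj j v := by
    rcases hvj with rfl | hvj
    · rcases hvi with h1 | h1
      · exact absurd h1.symm hij
      · exact absurd h1 hnadj
    · exact hvj
  refine ⟨hij, hndis, ?_⟩
  have hd1 := (adj_iff hk).mp hvi'
  have hd2 := (adj_iff hk).mp hvj'
  apply Finset.Subset.antisymm
  · intro x hx
    rw [Finset.mem_compl]
    intro hxv
    rcases Finset.mem_union.mp hx with hx | hx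
    · exact (Finset.disjoint_left.mp hd1) hx hxv
    · exact (Finset.disjoint_left.mp hd2) hx hxv
  · intro x hx
    by_contra hxu
    rw [Finset.mem_compl] at hx
    rw [Finset.mem_union, not_or] at hxu
    obtain ⟨y, hy⟩ : v.1.Nonempty := by
      rw [← Finset.card_pos, v.2]; omega
    have hcard : (insert x (v.1.erase y)).card = k := by
      rw [Finset.card_insert_of_notMem (fun h => hx (Finset.mem_of_mem_erase h)),
        Finset.card_erase_of_mem hy, v.2]
      omega
    have hdis : ∀ z : Vx n k, x ∉ z.1 → Disjoint z.1 v.1 →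
        Disjoint z.1 (insert x (v.1.erase y)) := by
      intro z hxz hzv
      rw [Finset.disjoint_left]
      intro a haz ha
      rcases Finset.mem_insert.mp ha with rfl | ha
      · exact hxz haz
      · exact (Finset.disjoint_left.mp hzv) haz (Finset.mem_of_mem_erase ha)
    have h1 := (h ⟨insert x (v.1.erase y), hcard⟩).mp
      ⟨Or.inr ((adj_iff hk).mpr (hdis i hxu.1 hd1)), Or.inr ((adj_iff hk).mpr (hdis j hxu.2 hd2))⟩
    apply hx
    rw [← h1]
    exact Finset.mem_insert_self _ _

/-- The main step: only `n = 3k - 1` (and `k ≥ 2`) is possible when `n ≥ 2k`. -/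
lemma only_if (hk : 1 ≤ k) (hn : 2 * k ≤ n) (u : Vx n k →₀ ℕ)
    (h1 : ¬ ∃ i j, ind (closedNbhd (kneser n k) i) + ind (closedNbhd (kneser n k) j) ≤ u)
    (h2 : ∀ v, ∃ i j, ind (closedNbhd (kneser n k) i) + ind (closedNbhd (kneser n k) j)
      ≤ Finsupp.single v 1 + u) : 2 ≤ k ∧ n = 3 * k - 1 := by
  classical
  obtain ⟨hA, hB⟩ := structure_lemma (kneser n k) u h1 h2
  -- a vertex in the support
  obtain ⟨v₀⟩ : Nonempty (Vx n k) := by
    obtain ⟨t, -, htc⟩ := Finset.exists_subset_card_eq
      (show k ≤ (Finset.univ : Finset (Fin n)).card by rw [Finset.card_univ, Fintype.card_fin]; omega)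
    exact ⟨⟨t, htc⟩⟩
  obtain ⟨a, ha⟩ : ∃ a, u a ≠ 0 := by
    obtain ⟨i, j, hij⟩ := h2 v₀
    obtain ⟨t, ht⟩ := exists_adj hk hn i
    have key : ∀ w, w ∈ closedNbhd (kneser n k) i → w ≠ v₀ → u w ≠ 0 := by
      intro w hw hwv
      have := hij w
      rw [Finsupp.add_apply, Finsupp.add_apply, ind_apply, if_pos hw, Finsupp.single_apply,
        if_neg (Ne.symm hwv)] at this
      omega
    by_cases hi : i = v₀
    · refine ⟨t, key t (mem_closedNbhd.mpr (Or.inr ht)) ?_⟩
      rw [← hi]; exact ht.ne.symm
    · exact ⟨i, key i (self_mem _ _) hi⟩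
  obtain ⟨w, w', hw, -, hww⟩ := hA a ha
  obtain ⟨hne, hndis, hun⟩ := union_eq hk hn hww
  -- cardinalities
  have hcard : (w.1 ∪ w'.1).card = n - k := by
    rw [hun, Finset.card_compl, Fintype.card_fin, a.2]
  have hinter : 1 ≤ (w.1 ∩ w'.1).card := by
    rw [Nat.one_le_iff_ne_zero, Ne, Finset.card_eq_zero, ← Finset.disjoint_iff_inter_eq_empty]
    exact hndis
  have hsum := Finset.card_union_add_card_inter w.1 w'.1
  rw [w.2, w'.2, hcard] at hsum
  have hgt : 2 * k + 1 ≤ n := by
    by_contra hcon
    have hnk : n = 2 * k := by omega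
    apply hne
    have hc2 : (w.1 ∩ w'.1).card = k := by omega
    have e1 : w.1 ∩ w'.1 = w.1 := Finset.eq_of_subset_of_card_le Finset.inter_subset_left
      (by rw [hc2, w.2])
    have e2 : w.1 ∩ w'.1 = w'.1 := Finset.eq_of_subset_of_card_le Finset.inter_subset_right
      (by rw [hc2, w'.2])
    exact Subtype.ext (e1.symm.trans e2)
  -- suppose `n ≤ 3k - 2`
  by_contra hcon
  have hn3 : n + 2 ≤ 3 * k := by omega
  obtain ⟨i, j, hi, -, hij⟩ := hA w (hw w (self_mem _ _))
  obtain ⟨-, -, hun2⟩ := union_eq hk hn hij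
  have hiw : Disjoint i.1 w.1 := by
    have : i.1 ⊆ w.1ᶜ := by rw [← hun2]; exact Finset.subset_union_left
    exact Finset.disjoint_of_subset_left this disjoint_compl_left
  -- elements `z ∉ w ∪ i` and `y ∈ i`
  obtain ⟨z, hz⟩ : ∃ z, z ∉ w.1 ∪ i.1 := by
    by_contra hall
    push Not at hall
    have : (Finset.univ : Finset (Fin n)) ⊆ w.1 ∪ i.1 := fun x _ => hall x
    have h3 := Finset.card_le_card this
    have h4 := Finset.card_union_le w.1 i.1
    rw [Finset.card_univ, Fintype.card_fin] at h3
    rw [w.2, i.2] at h4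
    omega
  rw [Finset.mem_union, not_or] at hz
  obtain ⟨y, hy⟩ : i.1.Nonempty := by rw [← Finset.card_pos, i.2]; omega
  have hcu : (insert z (i.1.erase y)).card = k := by
    rw [Finset.card_insert_of_notMem (fun h => hz.2 (Finset.mem_of_mem_erase h)),
      Finset.card_erase_of_mem hy, i.2]
    omega
  let x : Vx n k := ⟨insert z (i.1.erase y), hcu⟩
  have hxw : Disjoint w.1 x.1 := by
    rw [Finset.disjoint_left]
    intro b hbw hbx
    rcases Finset.mem_insert.mp hbx with rfl | hbx
    · exact hz.1 hbw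
    · exact (Finset.disjoint_left.mp hiw) (Finset.mem_of_mem_erase hbx) hbw
  obtain ⟨p, q, hp, hq, hpq⟩ := hA x
    (hw x (mem_closedNbhd.mpr (Or.inr ((adj_iff hk).mpr hxw))))
  obtain ⟨-, -, hun3⟩ := union_eq hk hn hpq
  have hyx : y ∉ x.1 := by
    intro h
    rcases Finset.mem_insert.mp h with rfl | h
    · exact hz.2 hy
    · exact (Finset.mem_erase.mp h).1 rfl
  -- a member of the family meeting `i` exactly in `y`
  have main : ∀ r : Vx n k, (∀ w ∈ closedNbhd (kneser n k) r, u w ≠ 0) → r.1 ⊆ x.1ᶜ →
      y ∈ r.1 → False := by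
    intro r hr hrx hyr
    have hri : r.1 ∩ i.1 = {y} := by
      ext b
      rw [Finset.mem_inter, Finset.mem_singleton]
      constructor
      · rintro ⟨hbr, hbi⟩
        by_contra hby
        exact (Finset.mem_compl.mp (hrx hbr))
          (Finset.mem_insert_of_mem (Finset.mem_erase.mpr ⟨hby, hbi⟩))
      · rintro rfl; exact ⟨hyr, hy⟩
    obtain ⟨c, hcr, hci⟩ := hB r i hr hi
    rw [mem_closedNbhd] at hcr hci
    have hne : r ≠ i := by
      rintro rfl
      rw [Finset.inter_self] at hri
      have := r.2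
      rw [hri, Finset.card_singleton] at this
      omega
    have hnd : ¬ Disjoint r.1 i.1 := by
      rw [Finset.disjoint_iff_inter_eq_empty, hri]
      exact Finset.singleton_ne_empty y
    rcases hcr with rfl | hcr
    · rcases hci with h3 | h3
      · exact hne h3
      · exact hnd ((adj_iff hk).mp h3).symm
    · rcases hci with rfl | hci
      · exact hnd ((adj_iff hk).mp hcr)
      · have d1 := (adj_iff hk).mp hcr
        have d2 := (adj_iff hk).mp hci
        have d3 : Disjoint (r.1 ∪ i.1) c.1 := Finset.disjoint_union_left.mpr ⟨d1, d2⟩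
        have h3 := Finset.card_le_card (Finset.subset_univ ((r.1 ∪ i.1) ∪ c.1))
        rw [Finset.card_union_of_disjoint d3, Finset.card_univ, Fintype.card_fin, c.2] at h3
        have h4 := Finset.card_union_add_card_inter r.1 i.1
        rw [hri, Finset.card_singleton, r.2, i.2] at h4
        omega
  have hyc : y ∈ p.1 ∪ q.1 := by rw [hun3]; exact Finset.mem_compl.mpr hyx
  rcases Finset.mem_union.mp hyc with h3 | h3
  · exact main p hp (by rw [← hun3]; exact Finset.subset_union_left) h3
  · exact main q hq (by rw [← hun3]; exact Finset.subset_union_right) h3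

/-- The case `n = 3k - 1`. -/
lemma if_part (K : Type*) [Field K] (hk : 2 ≤ k) (hn : n = 3 * k - 1) :
    MaxIdealIsAssociated (NI K (kneser n k) ^ 2) := by
  classical
  have hk1 : 1 ≤ k := by omega
  refine isAssociated_of (kneser n k) (ind Finset.univ) ?_ ?_
  · rintro ⟨i, j, hij⟩
    -- a common closed neighbour
    obtain ⟨w, hwi, hwj⟩ : ∃ w, w ∈ closedNbhd (kneser n k) i ∧ w ∈ closedNbhd (kneser n k) j := by
      by_cases hd : Disjoint i.1 j.1
      · exact ⟨i, self_mem _ _, mem_closedNbhd.mpr (Or.inr ((adj_iff hk1).mpr hd.symm))⟩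
      · have h1 : 1 ≤ (i.1 ∩ j.1).card := by
          rw [Nat.one_le_iff_ne_zero, Ne, Finset.card_eq_zero,
            ← Finset.disjoint_iff_inter_eq_empty]
          exact hd
        have h2 := Finset.card_union_add_card_inter i.1 j.1
        rw [i.2, j.2] at h2
        have h3 : k ≤ ((i.1 ∪ j.1)ᶜ).card := by
          rw [Finset.card_compl, Fintype.card_fin]; omega
        obtain ⟨t, hts, htc⟩ := Finset.exists_subset_card_eq h3
        refine ⟨⟨t, htc⟩, mem_closedNbhd.mpr (Or.inr ((adj_iff hk1).mpr ?_)),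
          mem_closedNbhd.mpr (Or.inr ((adj_iff hk1).mpr ?_))⟩
        · exact Finset.disjoint_of_subset_left Finset.subset_union_left
            (Finset.disjoint_of_subset_right hts disjoint_compl_right)
        · exact Finset.disjoint_of_subset_left Finset.subset_union_right
            (Finset.disjoint_of_subset_right hts disjoint_compl_right)
    have := hij w
    rw [Finsupp.add_apply, ind_apply, ind_apply, ind_apply, if_pos hwi, if_pos hwj,
      if_pos (Finset.mem_univ w)] at this
    omega
  · intro v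
    have hvc : (v.1ᶜ).card = 2 * k - 1 := by
      rw [Finset.card_compl, Fintype.card_fin, v.2]; omega
    obtain ⟨s, hsv, hsc⟩ := Finset.exists_subset_card_eq (show k ≤ (v.1ᶜ).card by omega)
    obtain ⟨y, hy⟩ : s.Nonempty := by rw [← Finset.card_pos, hsc]; omega
    have hyn : y ∉ v.1ᶜ \ s := fun h => (Finset.mem_sdiff.mp h).2 hy
    have htc : (insert y (v.1ᶜ \ s)).card = k := by
      rw [Finset.card_insert_of_notMem hyn, Finset.card_sdiff_of_subset hsv, hvc, hsc]
      omega
    let i : Vx n k := ⟨s, hsc⟩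
    let j : Vx n k := ⟨insert y (v.1ᶜ \ s), htc⟩
    refine ⟨i, j, fun w => ?_⟩
    rw [Finsupp.add_apply, Finsupp.add_apply, ind_apply, ind_apply, ind_apply,
      if_pos (Finset.mem_univ w), Finsupp.single_apply]
    by_cases hwv : v = w
    · rw [if_pos hwv]; split_ifs <;> omega
    · rw [if_neg hwv]
      have hnot : ¬ (w ∈ closedNbhd (kneser n k) i ∧ w ∈ closedNbhd (kneser n k) j) := by
        rintro ⟨hwi, hwj⟩
        rw [mem_closedNbhd] at hwi hwj
        have hne : i ≠ j := by
          intro h
          have h1 : s = insert y (v.1ᶜ \ s) := congrArg Subtype.val h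
          have h2 : (v.1ᶜ \ s).card = k - 1 := by
            rw [Finset.card_sdiff_of_subset hsv, hvc, hsc]; omega
          obtain ⟨b, hb⟩ : (v.1ᶜ \ s).Nonempty := by rw [← Finset.card_pos, h2]; omega
          apply (Finset.mem_sdiff.mp hb).2
          rw [h1]
          exact Finset.mem_insert_of_mem hb
        have hnd : ¬ Disjoint i.1 j.1 := by
          rw [Finset.not_disjoint_iff]
          exact ⟨y, hy, Finset.mem_insert_self _ _⟩
        rcases hwi with rfl | hwi
        · rcases hwj with h | h
          · exact hne h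
          · exact hnd ((adj_iff hk1).mp h).symm
        · rcases hwj with rfl | hwj
          · exact hnd ((adj_iff hk1).mp hwi)
          · have d1 := (adj_iff hk1).mp hwi
            have d2 := (adj_iff hk1).mp hwj
            apply hwv
            symm
            apply Subtype.ext
            refine Finset.eq_of_subset_of_card_le ?_ (by rw [w.2, v.2])
            intro b hb
            by_contra hbv
            by_cases hbs : b ∈ s
            · exact (Finset.disjoint_left.mp d1) hbs hb
            · exact (Finset.disjoint_left.mp d2) (Finset.mem_insert_of_mem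
                (Finset.mem_sdiff.mpr ⟨Finset.mem_compl.mpr hbv, hbs⟩)) hb
      by_cases h1 : w ∈ closedNbhd (kneser n k) i
      · rw [if_pos h1, if_neg (fun h2 => hnot ⟨h1, h2⟩)]
      · rw [if_neg h1]; split_ifs <;> omega

/-- The edgeless case `n < 2k`. -/
lemma edgeless (K : Type*) [Field K] (hkn : k < n) (hn : n < 2 * k) :
    MaxIdealIsAssociated (NI K (kneser n k) ^ 2) := by
  classical
  have hnb : ∀ i j : Vx n k, j ∈ closedNbhd (kneser n k) i ↔ j = i := by
    intro i j
    rw [mem_closedNbhd]
    constructor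
    · rintro (h | h)
      · exact h
      · have d1 := h.2
        have h3 := Finset.card_le_card (Finset.subset_univ (i.1 ∪ j.1))
        rw [Finset.card_union_of_disjoint d1, Finset.card_univ, Fintype.card_fin, i.2, j.2] at h3
        omega
    · exact Or.inl
  obtain ⟨v₀⟩ : Nonempty (Vx n k) := by
    obtain ⟨t, -, htc⟩ := Finset.exists_subset_card_eq
      (show k ≤ (Finset.univ : Finset (Fin n)).card by rw [Finset.card_univ, Fintype.card_fin]; omega)
    exact ⟨⟨t, htc⟩⟩
  refine isAssociated_of (kneser n k) (Finsupp.single v₀ 1) ?_ ?_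
  · rintro ⟨i, j, hij⟩
    have key : ∀ w : Vx n k, (if w = i then 1 else 0) + (if w = j then 1 else 0)
        ≤ if v₀ = w then 1 else 0 := by
      intro w
      have := hij w
      rw [Finsupp.add_apply, ind_apply, ind_apply, Finsupp.single_apply] at this
      simpa only [hnb] using this
    have h1 := key i
    have h2 := key j
    rw [if_pos rfl] at h1
    rw [if_pos (rfl : j = j)] at h2
    by_cases e1 : v₀ = i
    · by_cases e2 : v₀ = j
      · rw [← e1, ← e2] at h1
        simp at h1
      · rw [if_neg e2] at h2; omega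
    · rw [if_neg e1] at h1; omega
  · intro v
    refine ⟨v, v₀, fun w => ?_⟩
    rw [Finsupp.add_apply, Finsupp.add_apply, ind_apply, ind_apply, Finsupp.single_apply,
      Finsupp.single_apply]
    simp only [hnb]
    have e1 : (if w = v then 1 else 0 : ℕ) = if v = w then 1 else 0 := by simp only [eq_comm]
    have e2 : (if w = v₀ then 1 else 0 : ℕ) = if v₀ = w then 1 else 0 := by simp only [eq_comm]
    rw [e1, e2]

end Kneser

/-- **The maximal ideal is an associated prime of `S/NI(K(n,k))^2` exactly for `n = 3k - 1`.**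
For every field and all `1 ≤ k` and `2k ≤ n`: `𝔪` is an associated prime of `S/NI(K(n,k))^2` if
and only if `k ≥ 2` and `n = 3k - 1`.  In the remaining (edgeless) cases `k < n < 2k` the
closed neighborhood ideal is `𝔪` itself, and `𝔪` is an associated prime of `S/𝔪^2`. -/
theorem result (K : Type*) [Field K] (n k : ℕ) (hk : 1 ≤ k) :
    (2 * k ≤ n → (MaxIdealIsAssociated (NI K (kneser n k) ^ 2) ↔ (2 ≤ k ∧ n = 3 * k - 1))) ∧
    (k < n → n < 2 * k → MaxIdealIsAssociated (NI K (kneser n k) ^ 2)) := by
  refine ⟨fun hn => ⟨fun h => ?_, fun h => if_part K h.1 h.2⟩, fun h1 h2 => edgeless K h1 h2⟩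
  obtain ⟨u, h1, h2⟩ := exists_of_isAssociated (kneser n k) h
  exact only_if hk hn u h1 h2

end Pool.Agent.Results.MP_a8e883_al.KneserClassification
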